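import Pool.Agent.Lib.MP_b525bf_ag_GU.Final

/-!
# Log uniformization of all valuations for group actions of complexity at most two
-/

open Pool.Agent.LU2G Pool.Agent.MP_b525bf_ag_ES Pool.Agent.MP_b525bf_ag_SG
  Pool.Agent.MP_b525bf_ag_GU

/-- Let `k` be an infinite perfect field of characteristic `p > 0`, for example an algebraically
closed one, `G` a subgroup of `GL_N(k)` with root group data for a finite reduced root datum (as
every split connected reductive group has), `X = Spec A` an integral affine scheme of finite type
over `k`, of any dimension, with a rational action of `G` such that the field of rational functions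
invariant under the Borel subgroup of `G` has transcendence degree at most two over `k` (complexity
at most two). Then for every valuation ring `V` of the field of
fractions of `A` that contains `A`, of any rank and with any residue field, and all `G`-stable
ideals `E ≠ 0`, `J ≠ 0` of `A` there is an ideal `I ≠ 0` such that the blowing up of `X` in `J * I`
is a log desingularization of `(X, V(E))` along `V`. -/
theorem Pool.Agent.Results.MP_5b7a2c_ag.ComplexityTwo.result (p : ℕ) [Fact p.Prime] (k : Type)
    [Field k] [PerfectField k] [Infinite k] [CharP k p] (A : Type) [CommRing A] [IsDomain A]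
    [Algebra k A] [Algebra.FiniteType k A] {N n : ℕ} {R : Type} [Finite R]
    {P : RootDatum R (Fin n → ℤ) (Fin n → ℤ)} [P.IsReduced] {b : P.Base}
    (G : Subgroup (GL (Fin N) k)) (D : RootGroupData P b G) (ρ : G →* (A ≃ₐ[k] A))
    (hρ : IsRational ρ) (hc : Algebra.trdeg k (invField (D.borel.map ρ)) ≤ 2)
    (V : ValuationSubring (FractionRing A)) (hV : ∀ a : A, algebraMap A (FractionRing A) a ∈ V)
    (E J : Ideal A) (hE : E ≠ ⊥) (hEG : ∀ g, ∀ a ∈ E, ρ g a ∈ E) (hJ : J ≠ ⊥)
    (hJG : ∀ g, ∀ a ∈ J, ρ g a ∈ J) :
    ∃ I : Ideal A, I ≠ ⊥ ∧ IsLogDesing V E (J * I) :=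
  log_of_complexity p k A G D ρ hρ hc V hV E J hE hEG hJ hJG
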