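import Pool.Agent.Lib.LUC.AscPerf
import Pool.Agent.Lib.LU2_h15z.Final

/-!
# Log uniformization of the valuation rings all of whose rank one components have Abhyankar defect
at most one, or that are limits of such valuation rings
-/

open Pool.Agent.LU2G

/-- Let `k` be a perfect field of characteristic `p`, let `X = Spec A` be an integral affine scheme
essentially of finite type over `k`, let `V` be a valuation ring, of any rank and with any residue
field, of the field of fractions `K` of `A` that contains `A`, and let `F` be a finitely generated
extension of `k` contained in `K`, dense in `K` for the topology defined by `V`, such that `K` is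
separable over `F` (for example `F = K`). Assume that all rank one components of the valuation ring
`V ∩ F` of `F` have Abhyankar defect at most one over `k`. Then `V` is log uniformizable: for every
closed subset `V(D) ≠ X` and every blowing up of `X`, in an ideal `J ≠ 0`, there is a blowing up
that dominates it, in an ideal `J * I ≠ 0`, such that its local ring at the center of the lift of
`V` is regular, and the inverse image of `V(D) ∪ V(J * I)` is a strict normal crossings divisor
there. -/
theorem Pool.Agent.Results.MP_5b7a2c_ag.DefectOne.result (p : ℕ) [Fact p.Prime]
    (k : Type) [Field k] [PerfectField k] [CharP k p]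
    (A : Type) [CommRing A] [IsDomain A] [Algebra k A] [Algebra.EssFiniteType k A]
    (V : ValuationSubring (FractionRing A)) (hV : ∀ a : A, algebraMap A (FractionRing A) a ∈ V)
    (F : IntermediateField k (FractionRing A)) (hF : F.FG)
    (hdense : ∀ a b : FractionRing A, b ≠ 0 → ∃ c ∈ F, V.valuation (a - c) < V.valuation b)
    (s : Finset (FractionRing A))
    (hs : AlgebraicIndependent F (Subtype.val : s → FractionRing A))
    (hsep : Algebra.IsSeparable (IntermediateField.adjoin F (s : Set (FractionRing A)))
      (FractionRing A))
    (hdef : ComponentDefectsLEOne (algebraMap k F) (V.comap (algebraMap F (FractionRing A)))) :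
    LogUniformizable V :=
  Pool.Agent.LUC.logUniformizable_dense k
    (Pool.Agent.LU2.realCaseR p Fact.out).realCase A V hV F hF hdense s hs hsep hdef
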